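import Pool.Agent.MP_452076_pr.Mg.Main

namespace Pool.Agent.Results.MP_452076_pr.Domination

open MeasureTheory ProbabilityTheory Pool.Agent.MP_452076_pr
open scoped NNReal ENNReal

/-- For the supercritical contact process the upper stationary process, observed along an arbitrary
sequence of sites at integer times, dominates a non-trivial Bernoulli product measure whose density
does not depend on the sequence. -/
theorem result (d : ℕ) (hd : 1 ≤ d) (lam : ℝ≥0) (h : lambdaC d < (lam : ℝ≥0∞)) :
    ∃ ρ : unitInterval, 0 < ρ ∧ ∀ x : ℤ → Site d,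
      AEMeasurable (fun (ω : Sample d) (i : ℤ) => eta ω (i : ℝ) (x i)) (law d lam) ∧
      ∃ Q : Measure ((ℤ → Bool) × (ℤ → Bool)), IsProbabilityMeasure Q ∧
        Q.fst = (law d lam).map (fun (ω : Sample d) (i : ℤ) => eta ω (i : ℝ) (x i)) ∧
        Q.snd = (Measure.infinitePi fun _ : ℤ => bernoulliMeasure true false ρ) ∧
        ∀ᵐ p ∂Q, ∀ i, p.2 i ≤ p.1 i :=
  domination d hd lam h

end Pool.Agent.Results.MP_452076_pr.Domination
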